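import Pool.Agent.helper7.EP.SpecA

/-! # ep:EXB (helper70) -/

set_option autoImplicit false

open Finset PowerSeries

noncomputable section

namespace Pool.Agent.EP

theorem EXB : EXB_stmt := by
  intro a y k hk
  classical
  have hsub : ExB a y k ⊆
      (range (2 * 2 ^ a + Nat.sqrt y + 1)).image (fun u => 3 * u ^ 2 - k * 2 ^ a) := by
    intro p hp
    unfold ExB Pt at hp
    simp only [Finset.mem_filter, Finset.mem_Ioc] at hp
    obtain ⟨⟨⟨-, hp2⟩, -⟩, u, hu⟩ := hp
    rw [Finset.mem_image]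
    refine ⟨u, ?_, ?_⟩
    · rw [Finset.mem_range]
      by_contra hlt
      push Not at hlt
      have h1 : (2 * 2 ^ a + Nat.sqrt y + 1) ^ 2 ≤ u ^ 2 := Nat.pow_le_pow_left hlt 2
      have h2 : y < (Nat.sqrt y + 1) * (Nat.sqrt y + 1) := Nat.lt_succ_sqrt y
      have h3 : k * 2 ^ a ≤ 12 * 2 ^ a * 2 ^ a := Nat.mul_le_mul_right _ hk
      generalize 2 ^ a = A at *
      generalize Nat.sqrt y = s at *
      nlinarith [Nat.zero_le (A * (s + 1))]
    · show 3 * u ^ 2 - k * 2 ^ a = p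
      omega
  calc #(ExB a y k) ≤ #((range (2 * 2 ^ a + Nat.sqrt y + 1)).image
        (fun u => 3 * u ^ 2 - k * 2 ^ a)) := Finset.card_le_card hsub
    _ ≤ #(range (2 * 2 ^ a + Nat.sqrt y + 1)) := Finset.card_image_le
    _ = 2 * 2 ^ a + Nat.sqrt y + 1 := Finset.card_range _

end Pool.Agent.EP
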